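import Pool.Agent.N463.MI.Stm

set_option autoImplicit false

/-! Part B02: bounds for the kernel. -/

namespace Pool.Agent.N901.MI

open Pool.Agent.N463.MI

lemma sinh_le (s : ℝ) (hs : 0 < s) : Real.sinh s ≤ s * Real.cosh s := by
  obtain ⟨c, hc, h⟩ := exists_deriv_eq_slope Real.sinh hs Real.continuous_sinh.continuousOn
    Real.differentiable_sinh.differentiableOn
  rw [Real.deriv_sinh, Real.sinh_zero, sub_zero, sub_zero, eq_div_iff hs.ne'] at h
  have h2 : Real.cosh c ≤ Real.cosh s := by
    rw [Real.cosh_le_cosh, abs_of_pos hc.1, abs_of_pos hs]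
    exact hc.2.le
  rw [← h, mul_comm]
  exact mul_le_mul_of_nonneg_left h2 hs.le

theorem t_B02 : B02 := by
  intro s φ hs
  set c := Real.cos φ with hc
  have hc1 : c ≤ 1 := Real.cos_le_one φ
  have hc2 : -1 ≤ c := Real.neg_one_le_cos φ
  set E := Real.exp s with hE
  set F := Real.exp (-s) with hF
  have hEF : E * F = 1 := by rw [hE, hF, ← Real.exp_add]; simp
  have hE1 : s + 1 ≤ E := Real.add_one_le_exp s
  have hF0 : 0 < F := Real.exp_pos _
  have hF1 : F < 1 := by
    rw [hF, Real.exp_lt_one_iff]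
    linarith
  have hsF : s * F ≤ 1 := by nlinarith
  have hsinh : Real.sinh s = (E - F) / 2 := Real.sinh_eq s
  have hcosh : Real.cosh s = (E + F) / 2 := Real.cosh_eq s
  have hAB : E + F - 2 = (E - 1) * (1 - F) := by linarith [hEF]
  have hpos : 0 < E + F - 2 := by
    rw [hAB]
    exact mul_pos (by linarith) (by linarith)
  have hd : 0 < Real.cosh s - c := by
    rw [hcosh]
    linarith
  have hsp : 0 < Real.sinh s := Real.sinh_pos_iff.2 hs
  refine ⟨?_, div_pos hsp hd, fun h0 => ?_⟩
  · have e1 : kr s φ - 1 = (c - F) / (Real.cosh s - c) := by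
      unfold kr
      rw [← hc, div_sub_one hd.ne']
      congr 1
      rw [hsinh, hcosh]
      ring
    have hA : s * (1 - F) ≤ E + F - 2 := by
      rw [hAB]
      exact mul_le_mul_of_nonneg_right (by linarith) (by linarith)
    have hB : 0 ≤ E + F + 2 - s * (1 + F) := by nlinarith
    rw [e1, abs_div, abs_of_pos hd, div_le_div_iff₀ hd hs, hcosh]
    rcases abs_cases (c - F) with ⟨h, -⟩ | ⟨h, -⟩
    · rw [h]
      nlinarith
    · rw [h]
      have h0 : 0 ≤ s * (1 - F) := mul_nonneg hs.le (by linarith)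
      have h1 := mul_nonneg (by linarith : 0 ≤ 1 + c) (by linarith : 0 ≤ E + F - 2 + s * (1 - F))
      have h2 := mul_nonneg (by linarith : 0 ≤ 1 - c) hB
      nlinarith
  · unfold kr
    rw [Real.cos_add_pi, ← hc, sub_neg_eq_add, div_le_iff₀ (by linarith [Real.cosh_pos s])]
    have := sinh_le s hs
    nlinarith

end Pool.Agent.N901.MI
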